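import Pool.Agent.Rich3.Main

/-!
# Rich words over three integers contain additive cubes

Every infinite rich word over a set `A` of at most three integers contains three consecutive blocks
of the same length that are rearrangements of one another; in particular it contains an additive
cube.

Idea of the proof.  An infinite rich word over a finite alphabet has arbitrarily long palindromic
factors.  Up to a permutation of the letters a long palindrome without a cube `xxx` has one of the
two centres `b a a b`, `b a b`.  Consider the tree of all palindromes with such a centre, the
children of `P` being `x P x`.  A finite certificate, checked by the kernel, shows that each branch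
of the tree ends in a palindrome which starts with an abelian cube or with a complete return to a
palindrome that is not itself a palindrome; the latter is impossible in a rich word.
-/

namespace Pool.Agent.Results.MP_e25200_co.ThreeLetters

open Pool.Agent.Rich3

/-- Every infinite rich word over at most three integers contains an abelian cube, hence an additive
cube. -/
theorem result (A : Finset ℤ) (hA : A.card ≤ 3) (u : ℕ → ℤ) (hu : ∀ n, u n ∈ A)
    (hrich : RichSeq u) :
    ∃ i l : ℕ, 1 ≤ l ∧
      (factor u i l).Perm (factor u (i + l) l) ∧
      (factor u (i + l) l).Perm (factor u (i + 2 * l) l) ∧
      (factor u i l).sum = (factor u (i + l) l).sum ∧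
      (factor u (i + l) l).sum = (factor u (i + 2 * l) l).sum := by
  obtain ⟨i, l, hl, h1, h2⟩ := hasAbelianCube_of_card A hA u hu hrich
  exact ⟨i, l, hl, h1, h2, h1.sum_eq, h2.sum_eq⟩

end Pool.Agent.Results.MP_e25200_co.ThreeLetters
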